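import Pool.Agent.Work.MP_b5407d_lbm.Interface

set_option autoImplicit false

open MeasureTheory Set Filter Topology

namespace Pool.LBM

namespace PV

theorem floor_ev {t : ℝ} (ht : t ∉ Set.range (fun n : ℕ => (n : ℝ))) :
    ∀ᶠ s in 𝓝 t, ⌊s⌋₊ = ⌊t⌋₊ := by
  rcases lt_or_ge t 0 with h | h
  · have h1 : ∀ᶠ s in 𝓝 t, s < 0 := eventually_lt_nhds h
    filter_upwards [h1] with s hs
    rw [Nat.floor_of_nonpos hs.le, Nat.floor_of_nonpos h.le]
  · have h1 : ((⌊t⌋₊ : ℕ) : ℝ) < t := by
      refine lt_of_le_of_ne (Nat.floor_le h) ?_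
      intro h2
      exact ht ⟨_, h2⟩
    have h2 : t < (⌊t⌋₊ : ℝ) + 1 := Nat.lt_floor_add_one t
    filter_upwards [Ioo_mem_nhds h1 h2] with s hs
    exact Nat.floor_eq_on_Ico _ _ ⟨hs.1.le, hs.2⟩

theorem pl_deriv (a : ℕ → ℝ) {t : ℝ} (ht : t ∉ Set.range (fun n : ℕ => (n : ℝ))) :
    HasDerivAt (pl a) (dpl a t) t := by
  have h1 : HasDerivAt (fun s : ℝ => a ⌊t⌋₊ + (s - ⌊t⌋₊) * (a (⌊t⌋₊ + 1) - a ⌊t⌋₊))
      (dpl a t) t := by
    have h2 : HasDerivAt (fun s : ℝ => s - (⌊t⌋₊ : ℝ)) 1 t := (hasDerivAt_id t).sub_const _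
    have h3 := (h2.mul_const (a (⌊t⌋₊ + 1) - a ⌊t⌋₊)).const_add (a ⌊t⌋₊)
    rw [one_mul] at h3
    exact h3
  refine h1.congr_of_eventuallyEq ?_
  filter_upwards [floor_ev ht] with s hs
  unfold pl
  rw [hs]

theorem pl_nat (a : ℕ → ℝ) (n : ℕ) : pl a n = a n := by
  unfold pl
  rw [Nat.floor_natCast, sub_self, zero_mul, add_zero]

theorem pl_Icc (a : ℕ → ℝ) (n : ℕ) {s : ℝ} (hs : s ∈ Icc (n : ℝ) (n + 1)) :
    pl a s = a n + (s - n) * (a (n + 1) - a n) := by
  rcases lt_or_eq_of_le hs.2 with h | h
  · unfold pl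
    rw [Nat.floor_eq_on_Ico n s ⟨hs.1, h⟩]
  · have h1 : s = ((n + 1 : ℕ) : ℝ) := by
      rw [h]
      push_cast
      ring
    rw [h1, pl_nat]
    push_cast
    ring

theorem pl_cont (a : ℕ → ℝ) : Continuous (pl a) := by
  rw [continuous_iff_continuousAt]
  intro t
  by_cases ht : t ∈ Set.range (fun n : ℕ => (n : ℝ))
  · obtain ⟨n, rfl⟩ := ht
    rcases Nat.eq_zero_or_pos n with h0 | h0
    · subst h0
      have h1 : ContinuousAt (fun s : ℝ => a 0 + s * (a 1 - a 0)) ((0 : ℕ) : ℝ) := by
        fun_prop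
      refine h1.congr ?_
      have h2 : ∀ᶠ s in 𝓝 (((0 : ℕ) : ℝ)), s < 1 := eventually_lt_nhds (by norm_num)
      filter_upwards [h2] with s hs
      unfold pl
      rw [Nat.floor_eq_zero.2 hs]
      simp
    · obtain ⟨k, rfl⟩ : ∃ k, n = k + 1 := ⟨n - 1, by omega⟩
      have hk : ((k + 1 : ℕ) : ℝ) = (k : ℝ) + 1 := by push_cast; ring
      refine continuousAt_iff_continuous_left_right.2 ⟨?_, ?_⟩
      · have h1 : ContinuousWithinAt (fun s : ℝ => a k + (s - k) * (a (k + 1) - a k))
            (Iic ((k + 1 : ℕ) : ℝ)) ((k + 1 : ℕ) : ℝ) := by fun_prop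
        refine h1.congr_of_eventuallyEq ?_ ?_
        · have h2 : Ioi (k : ℝ) ∈ 𝓝 (((k + 1 : ℕ) : ℝ)) := by
            apply Ioi_mem_nhds
            rw [hk]
            linarith
          filter_upwards [mem_nhdsWithin_of_mem_nhds h2, self_mem_nhdsWithin] with s hs1 hs2
          apply pl_Icc
          refine ⟨(mem_Ioi.1 hs1).le, ?_⟩
          rw [← hk]
          exact hs2
        · apply pl_Icc
          rw [hk]
          exact ⟨by linarith, le_refl _⟩
      · have h1 : ContinuousWithinAt (fun s : ℝ => a (k + 1) +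
            (s - ((k + 1 : ℕ) : ℝ)) * (a (k + 1 + 1) - a (k + 1)))
            (Ici ((k + 1 : ℕ) : ℝ)) ((k + 1 : ℕ) : ℝ) := by fun_prop
        refine h1.congr_of_eventuallyEq ?_ ?_
        · have h2 : Iio (((k + 1 : ℕ) : ℝ) + 1) ∈ 𝓝 (((k + 1 : ℕ) : ℝ)) := by
            apply Iio_mem_nhds
            linarith
          filter_upwards [mem_nhdsWithin_of_mem_nhds h2, self_mem_nhdsWithin] with s hs1 hs2
          apply pl_Icc
          exact ⟨hs2, (mem_Iio.1 hs1).le⟩
        · apply pl_Icc
          exact ⟨le_refl _, by linarith⟩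
  · exact (pl_deriv a ht).continuousAt

theorem dpl_int (a : ℕ → ℝ) (p q : ℝ) : IntervalIntegrable (dpl a) volume p q := by
  have hm : Measurable (dpl a) := by
    unfold dpl
    have h1 : Measurable (fun t : ℝ => ⌊t⌋₊) := Nat.measurable_floor
    exact (measurable_from_nat (f := fun n => a (n + 1) - a n)).comp h1
  rw [intervalIntegrable_iff]
  refine Measure.integrableOn_of_bounded
    (M := ∑ k ∈ Finset.range (⌊max p q⌋₊ + 1), |a (k + 1) - a k|) ?_
    hm.aestronglyMeasurable ?_
  · rw [uIoc]
    exact measure_Ioc_lt_top.ne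
  · refine (ae_restrict_iff' measurableSet_uIoc).2 (Eventually.of_forall fun t ht => ?_)
    have h1 : ⌊t⌋₊ ≤ ⌊max p q⌋₊ := Nat.floor_mono ht.2
    unfold dpl
    rw [Real.norm_eq_abs]
    exact Finset.single_le_sum (f := fun k => |a (k + 1) - a k|) (fun _ _ => abs_nonneg _)
      (Finset.mem_range.2 (by omega))

theorem mul_int (a : ℕ → ℝ) {F : ℝ → ℝ} (hF : Continuous F) (p q : ℝ) :
    IntervalIntegrable (fun t => F t * dpl a t) volume p q :=
  (dpl_int a p q).continuousOn_mul hF.continuousOn

theorem dpl_ev (a : ℕ → ℝ) {t : ℝ} (ht : t ∉ Set.range (fun n : ℕ => (n : ℝ))) :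
    ContinuousAt (dpl a) t := by
  have h1 : ContinuousAt (fun _ : ℝ => dpl a t) t := continuousAt_const
  refine h1.congr ?_
  filter_upwards [floor_ev ht] with s hs
  unfold dpl
  rw [hs]

/-- primitives -/
theorem prim_deriv (a : ℕ → ℝ) {F : ℝ → ℝ} (hF : Continuous F) (p : ℝ) {t : ℝ}
    (ht : t ∉ Set.range (fun n : ℕ => (n : ℝ))) :
    HasDerivAt (fun t => ∫ s in p..t, F s * dpl a s) (F t * dpl a t) t := by
  refine intervalIntegral.integral_hasDerivAt_right (mul_int a hF p t) ?_
    (hF.continuousAt.mul (dpl_ev a ht))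
  have hm : Measurable (dpl a) := by
    unfold dpl
    have h1 : Measurable (fun t : ℝ => ⌊t⌋₊) := Nat.measurable_floor
    exact (measurable_from_nat (f := fun n => a (n + 1) - a n)).comp h1
  exact (hF.measurable.mul hm).aestronglyMeasurable.stronglyMeasurableAtFilter

theorem prim_cont (a : ℕ → ℝ) {F : ℝ → ℝ} (hF : Continuous F) (p : ℝ) :
    Continuous (fun t => ∫ s in p..t, F s * dpl a s) :=
  intervalIntegral.continuous_primitive (fun x y => mul_int a hF x y) p

theorem ftc {H H' : ℝ → ℝ} (m : ℕ) (hc : Continuous H)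
    (hd : ∀ t, t ∉ Set.range (fun n : ℕ => (n : ℝ)) → HasDerivAt H (H' t) t)
    (hi : IntervalIntegrable H' volume 0 m) : ∫ t in (0 : ℝ)..m, H' t = H m - H 0 := by
  refine integral_eq_of_hasDerivAt_off_countable_of_le H H' (Nat.cast_nonneg m)
    (Set.countable_range (fun n : ℕ => (n : ℝ))) hc.continuousOn ?_ hi
  intro t ht
  exact hd t ht.2

/-! mE -/

theorem mE_deriv (v x : ℝ) : HasDerivAt (mE v) (Real.exp (-(v * x))) x := by
  have h1 : Continuous (fun s : ℝ => Real.exp (-(v * s))) := by fun_prop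
  exact intervalIntegral.integral_hasDerivAt_right (h1.intervalIntegrable 0 x)
    (h1.stronglyMeasurableAtFilter _ _) h1.continuousAt

theorem mE_cont (v : ℝ) : Continuous (mE v) := by
  rw [continuous_iff_continuousAt]
  exact fun x => (mE_deriv v x).continuousAt

theorem mE_zero (v : ℝ) : mE v 0 = 0 := by
  unfold mE
  exact intervalIntegral.integral_same

theorem mE_eq (w y : ℝ) : Real.exp (-(w * y)) + w * mE w y = 1 := by
  have h1 : ∫ s in (0 : ℝ)..y, w * Real.exp (-(w * s)) =
      (-Real.exp (-(w * y))) - (-Real.exp (-(w * 0))) := by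
    refine intervalIntegral.integral_eq_sub_of_hasDerivAt (f := fun s => -Real.exp (-(w * s)))
      (fun s _ => ?_) ?_
    · have h2 : HasDerivAt (fun s : ℝ => -(w * s)) (-(w * 1)) s :=
        ((hasDerivAt_id s).const_mul w).neg
      have h3 := h2.exp.neg
      have h4 : -(Real.exp (-(w * s)) * (-(w * 1))) = w * Real.exp (-(w * s)) := by ring
      rw [h4] at h3
      exact h3
    · have h2 : Continuous (fun s : ℝ => w * Real.exp (-(w * s))) := by fun_prop
      exact h2.intervalIntegrable _ _
  rw [intervalIntegral.integral_const_mul] at h1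
  unfold mE
  rw [h1, mul_zero, neg_zero, Real.exp_zero]
  ring

section
variable (v w : ℝ) (a b : ℕ → ℝ)

theorem pe_pos (t : ℝ) : 0 < pe v w a b t := Real.exp_pos _

theorem pe_cont : Continuous (pe v w a b) := by
  have h1 := pl_cont a
  have h2 := pl_cont b
  unfold pe
  fun_prop

theorem pq_cont : Continuous (pq v w a b) := by
  have h1 := pl_cont a
  have h2 := (mE_cont w).comp (pl_cont b)
  have h3 : Continuous (fun t => Real.exp (-(v * pl a t))) := by fun_prop
  exact h3.mul h2

theorem pX_cont : Continuous (pX v w a b) := prim_cont a (pe_cont v w a b) 0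

theorem pu_cont (C : ℝ) : Continuous (pu v w a b C) := by
  unfold pu
  exact (continuous_const.sub (pX_cont v w a b)).div (pe_cont v w a b)
    (fun t => (pe_pos v w a b t).ne')

theorem pVx_cont (C κ : ℝ) : Continuous (pVx v w a b C κ) :=
  continuous_const.add (prim_cont a (pu_cont v w a b C) 0)

theorem pVy_cont (m : ℕ) (C η : ℝ) : Continuous (pVy v w a b m C η) :=
  continuous_const.add (prim_cont b (pu_cont v w a b C) m)

variable {t : ℝ} (ht : t ∉ Set.range (fun n : ℕ => (n : ℝ)))
include ht

theorem pVx_deriv (C κ : ℝ) :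
    HasDerivAt (pVx v w a b C κ) (pu v w a b C t * dpl a t) t :=
  (prim_deriv a (pu_cont v w a b C) 0 ht).const_add _

theorem pVy_deriv (m : ℕ) (C η : ℝ) :
    HasDerivAt (pVy v w a b m C η) (pu v w a b C t * dpl b t) t :=
  (prim_deriv b (pu_cont v w a b C) m ht).const_add _

theorem mEpl_deriv : HasDerivAt (fun t => mE v (pl a t))
    (Real.exp (-(v * pl a t)) * dpl a t) t :=
  (mE_deriv v (pl a t)).comp t (pl_deriv a ht)

theorem pq_deriv : HasDerivAt (pq v w a b)
    (-v * pq v w a b t * dpl a t + pe v w a b t * dpl b t) t := by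
  have h1 : HasDerivAt (fun t => Real.exp (-(v * pl a t)))
      (Real.exp (-(v * pl a t)) * (-(v * dpl a t))) t :=
    ((pl_deriv a ht).const_mul v).neg.exp
  have h2 : HasDerivAt (fun t => mE w (pl b t)) (Real.exp (-(w * pl b t)) * dpl b t) t :=
    mEpl_deriv w b ht
  have h3 := h1.mul h2
  have h4 : Real.exp (-(v * pl a t)) * (-(v * dpl a t)) * mE w (pl b t) +
      Real.exp (-(v * pl a t)) * (Real.exp (-(w * pl b t)) * dpl b t) =
      -v * pq v w a b t * dpl a t + pe v w a b t * dpl b t := by
    have h5 : pe v w a b t = Real.exp (-(v * pl a t)) * Real.exp (-(w * pl b t)) := by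
      unfold pe
      rw [← Real.exp_add]
      ring_nf
    rw [h5]
    unfold pq
    ring
  rw [h4] at h3
  exact h3

end

end PV

open PV in
theorem blk_PV : Stmt_PC → Stmt_PV := by
  intro hPC m a b v w C κ η ha0 ham hV
  obtain ⟨-, h2, -⟩ := hPC m a b v w C κ η ha0 ham
  have hc := h2 hV
  have cx := pl_cont a
  have cy := pl_cont b
  have ce := pe_cont v w a b
  have cq := pq_cont v w a b
  have cX := pX_cont v w a b
  have cu := pu_cont v w a b C
  have cVx := pVx_cont v w a b C κ
  have cVy := pVy_cont v w a b m C η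
  have cM : Continuous (fun t => mE v (pl a t)) := (mE_cont v).comp cx
  set c := pc v w a b m C κ η with hcdef
  -- the primitive
  set H : ℝ → ℝ := fun t => pq v w a b t * pVx v w a b C κ t -
    pVy v w a b m C η t * mE v (pl a t) with hH
  set H' : ℝ → ℝ := fun t =>
    ((-v * pq v w a b t * dpl a t + pe v w a b t * dpl b t) * pVx v w a b C κ t +
      pq v w a b t * (pu v w a b C t * dpl a t)) -
    ((pu v w a b C t * dpl b t) * mE v (pl a t) +
      pVy v w a b m C η t * (Real.exp (-(v * pl a t)) * dpl a t)) with hH'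
  have cH : Continuous H := (cq.mul cVx).sub (cVy.mul cM)
  have dH : ∀ t, t ∉ Set.range (fun n : ℕ => (n : ℝ)) → HasDerivAt H (H' t) t := by
    intro t ht
    exact ((pq_deriv v w a b ht).mul (pVx_deriv v w a b ht C κ)).sub
      ((pVy_deriv v w a b ht m C η).mul (mEpl_deriv v a ht))
  have cex : Continuous (fun t => Real.exp (-(v * pl a t))) := by fun_prop
  have iH : IntervalIntegrable H' volume 0 m := by
    have i1 := mul_int a (F := fun t => (-v * pq v w a b t) * pVx v w a b C κ t +
      pq v w a b t * pu v w a b C t - pVy v w a b m C η t * Real.exp (-(v * pl a t)))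
      (by fun_prop) 0 m
    have i2 := mul_int b (F := fun t => pe v w a b t * pVx v w a b C κ t -
      pu v w a b C t * mE v (pl a t)) (by fun_prop) 0 m
    refine (i1.add i2).congr ?_
    intro t _
    simp only [hH']
    ring
  have hF := ftc m cH dH iH
  -- boundary values
  have hx0 : pl a 0 = 0 := by
    have := pl_nat a 0
    rw [Nat.cast_zero] at this
    rw [this, ha0]
  have hxm : pl a m = 0 := by rw [pl_nat, ham]
  have hy0 : pl b 0 = b 0 := by
    have := pl_nat b 0
    rwa [Nat.cast_zero] at this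
  have hym : pl b m = b m := pl_nat b m
  have hV0 : pVx v w a b C κ 0 = -κ := by
    unfold pVx
    rw [intervalIntegral.integral_same, add_zero]
  have hHm : H m = -κ * mE w (b m) := by
    simp only [hH]
    rw [hV, hxm, mE_zero]
    unfold pq
    rw [hxm, hym, mul_zero, neg_zero, Real.exp_zero]
    ring
  have hH0 : H 0 = -κ * mE w (b 0) := by
    simp only [hH]
    rw [hV0, hx0, mE_zero]
    unfold pq
    rw [hx0, hy0, mul_zero, neg_zero, Real.exp_zero]
    ring
  have hU : (∫ s in (b 0)..(b m), Real.exp (-(w * s))) = mE w (b m) - mE w (b 0) := by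
    have h1 : Continuous (fun s : ℝ => Real.exp (-(w * s))) := by fun_prop
    unfold mE
    rw [eq_sub_iff_add_eq, add_comm]
    exact intervalIntegral.integral_add_adjacent_intervals (h1.intervalIntegrable _ _)
      (h1.intervalIntegrable _ _)
  -- the right side
  have hd : C * pd v w a b m - pP v w a b m =
      ∫ t in (0 : ℝ)..m, (pu v w a b C t * mE v (pl a t)) * dpl b t := by
    unfold pd pP
    rw [← intervalIntegral.integral_const_mul, ← intervalIntegral.integral_sub]
    · refine intervalIntegral.integral_congr fun t _ => ?_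
      unfold pu
      ring
    · have h1 := mul_int b (F := fun t => C * (mE v (pl a t) / pe v w a b t))
        (continuous_const.mul (cM.div ce (fun t => (pe_pos v w a b t).ne'))) 0 m
      refine h1.congr fun t _ => ?_
      ring
    · have h1 := mul_int b (F := fun t => pX v w a b t * mE v (pl a t) / pe v w a b t)
        ((cX.mul cM).div ce (fun t => (pe_pos v w a b t).ne')) 0 m
      exact h1
  -- combine
  have i1 : IntervalIntegrable (fun t => pe v w a b t *
      (pVx v w a b C κ t * dpl b t - pVy v w a b m C η t * dpl a t)) volume 0 m := by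
    have j1 := mul_int b (F := fun t => pe v w a b t * pVx v w a b C κ t) (by fun_prop) 0 m
    have j2 := mul_int a (F := fun t => pe v w a b t * pVy v w a b m C η t) (by fun_prop) 0 m
    refine (j1.sub j2).congr fun t _ => ?_
    ring
  have i2 : IntervalIntegrable (fun t => pl a t * pq v w a b t * dpl a t) volume 0 m :=
    mul_int a (F := fun t => pl a t * pq v w a b t) (by fun_prop) 0 m
  have i3 : IntervalIntegrable (fun t => pq v w a b t * dpl a t) volume 0 m :=
    mul_int a cq 0 m
  have hJ : c * pJ v w a b m = -∫ t in (0 : ℝ)..m, c * (pq v w a b t * dpl a t) := by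
    rw [intervalIntegral.integral_const_mul]
    unfold pJ pL
    ring
  have i4 : IntervalIntegrable (fun t => (pu v w a b C t * mE v (pl a t)) * dpl b t)
      volume 0 m := mul_int b (F := fun t => pu v w a b C t * mE v (pl a t)) (by fun_prop) 0 m
  have key : (∫ t in (0 : ℝ)..m, pe v w a b t *
      (pVx v w a b C κ t * dpl b t - pVy v w a b m C η t * dpl a t)) -
      (∫ t in (0 : ℝ)..m, pl a t * pq v w a b t * dpl a t) +
      (∫ t in (0 : ℝ)..m, c * (pq v w a b t * dpl a t)) =
      (∫ t in (0 : ℝ)..m, H' t) +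
        ∫ t in (0 : ℝ)..m, (pu v w a b C t * mE v (pl a t)) * dpl b t := by
    rw [← intervalIntegral.integral_sub i1 i2,
      ← intervalIntegral.integral_add (i1.sub i2) (i3.const_mul c),
      ← intervalIntegral.integral_add iH i4]
    refine intervalIntegral.integral_congr fun t ht => ?_
    rw [uIcc_of_le (Nat.cast_nonneg m)] at ht
    have e1 := hc t ht
    have e2 : pe v w a b t + w * pq v w a b t = Real.exp (-(v * pl a t)) := by
      have h5 : pe v w a b t = Real.exp (-(v * pl a t)) * Real.exp (-(w * pl b t)) := by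
        unfold pe
        rw [← Real.exp_add]
        ring_nf
      have h6 := mE_eq w (pl b t)
      rw [h5]
      unfold pq
      linear_combination Real.exp (-(v * pl a t)) * h6
    simp only [hH']
    rw [← e2, ← e1]
    ring
  rw [hF, hHm, hH0] at key
  rw [hU, hJ, hd]
  linear_combination key

end Pool.LBM
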